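import Pool.Agent.H19.OM.Stm

set_option autoImplicit false

/-! Project OM (helper19), module QLO (helper91): independent coordinates, the statistics are small. -/

namespace Pool.Agent.H91.OM

open Finset Pool.Agent.H19.OM

theorem pair {k : ℕ} (S : Finset ℕ) (Y : ℕ → ℝ) (h0 : ∑ x ∈ S, Y x = 0) (i j : Fin k) :
    ∑ n ∈ Fintype.piFinset (fun _ : Fin k => S), Y (n i) * Y (n j) =
      if i = j then (S.card : ℝ) ^ (k - 1) * ∑ x ∈ S, Y x ^ 2 else 0 := by
  classical
  have h1 : ∀ n : Fin k → ℕ, Y (n i) * Y (n j) =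
      ∏ l, ((if l = i then Y (n l) else 1) * (if l = j then Y (n l) else 1)) := by
    intro n
    rw [prod_mul_distrib]
    simp
  simp only [h1]
  have h2 := prod_univ_sum (fun _ : Fin k => S)
    (fun l x => (if l = i then Y x else 1) * (if l = j then Y x else 1))
  rw [← h2]
  split_ifs with h
  · subst h
    rw [← mul_prod_erase univ _ (mem_univ i)]
    have h3 : ∏ l ∈ univ.erase i, ∑ x ∈ S, ((if l = i then Y x else 1) * (if l = i then Y x else 1)) =
        (S.card : ℝ) ^ (k - 1) := by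
      rw [prod_congr rfl (g := fun _ => (S.card : ℝ))]
      · rw [prod_const, card_erase_of_mem (mem_univ i), card_univ, Fintype.card_fin]
      · intro l hl
        have : l ≠ i := (mem_erase.1 hl).1
        simp [this]
    rw [h3, mul_comm]
    congr 1
    refine sum_congr rfl fun x _ => ?_
    simp [sq]
  · refine prod_eq_zero (mem_univ i) ?_
    simp [h, h0]

theorem second {k : ℕ} {ι : Type} [Fintype ι] (S : Finset ℕ) (Y : ℕ → ℝ) (h0 : ∑ x ∈ S, Y x = 0)
    (e : ι → Fin k) (he : Function.Injective e) (ε : ι → ℝ) (hε : ∀ t, ε t * ε t = 1) :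
    ∑ n ∈ Fintype.piFinset (fun _ : Fin k => S), (∑ t, ε t * Y (n (e t))) ^ 2 =
      Fintype.card ι * ((S.card : ℝ) ^ (k - 1) * ∑ x ∈ S, Y x ^ 2) := by
  classical
  have h1 : ∀ n : Fin k → ℕ, (∑ t, ε t * Y (n (e t))) ^ 2 =
      ∑ t, ∑ t', (ε t * ε t') * (Y (n (e t)) * Y (n (e t'))) := by
    intro n
    rw [sq, sum_mul_sum]
    refine sum_congr rfl fun t _ => sum_congr rfl fun t' _ => ?_
    ring
  simp only [h1]
  rw [sum_comm]
  have h2 : ∀ t : ι, ∑ n ∈ Fintype.piFinset (fun _ : Fin k => S),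
      ∑ t', (ε t * ε t') * (Y (n (e t)) * Y (n (e t'))) =
        (S.card : ℝ) ^ (k - 1) * ∑ x ∈ S, Y x ^ 2 := by
    intro t
    rw [sum_comm]
    simp only [← mul_sum]
    rw [sum_eq_single t]
    · rw [pair S Y h0, if_pos rfl, hε, one_mul]
    · intro t' _ ht
      rw [pair S Y h0, if_neg (fun h => ht (he h).symm), mul_zero]
    · intro h
      exact absurd (mem_univ t) h
  rw [sum_congr rfl fun t _ => h2 t, sum_const, card_univ, nsmul_eq_mul]

/-- QLO -/
theorem t_QLO (hTK : S_TK) : S_QLO := by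
  classical
  obtain ⟨C, hC, htk⟩ := hTK
  refine ⟨8 * C, by positivity, fun y N a m k hy hN ha hm hk => ?_⟩
  obtain ⟨μ, hμ⟩ := htk y N hy hN
  have hN0 : (0 : ℝ) < N := by exact_mod_cast hN
  set S := Icc 1 N with hS
  have hcard : (S.card : ℝ) = N := by rw [hS, Nat.card_Icc]; simp
  -- the exact mean
  set ν : ℝ := (∑ n ∈ S, (Om y n : ℝ)) / N with hν
  set Y : ℕ → ℝ := fun n => (Om y n : ℝ) - ν with hY
  have h0 : ∑ x ∈ S, Y x = 0 := by
    rw [hY, sum_sub_distrib, sum_const, nsmul_eq_mul, hcard, hν]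
    field_simp
    ring
  have hV : ∑ x ∈ S, Y x ^ 2 ≤ C * (1 + Real.log (Real.log y)) * N := by
    refine le_trans ?_ hμ
    have h1 : ∀ x ∈ S, ((Om y x : ℝ) - μ) ^ 2 = Y x ^ 2 + 2 * (ν - μ) * Y x + (ν - μ) ^ 2 := by
      intro x _
      rw [hY]
      ring
    rw [sum_congr rfl h1, sum_add_distrib, sum_add_distrib, ← mul_sum, h0, mul_zero, add_zero]
    have : 0 ≤ ∑ _x ∈ S, (ν - μ) ^ 2 := sum_nonneg fun _ _ => sq_nonneg _
    linarith
  set L : ℝ := 1 + Real.log (Real.log y) with hL
  set D := 2 ^ a with hD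
  have hD2 : 2 ≤ D := by
    calc 2 = 2 ^ 1 := rfl
      _ ≤ 2 ^ a := Nat.pow_le_pow_right two_pos ha
  have hk1 : 1 ≤ k := le_trans (by nlinarith) hk
  -- one residue class
  have key : ∀ r : ℕ, (((Fintype.piFinset (fun _ : Fin k => S)).filter (fun n => (a : ℝ) * m / 2 ≤
      stat D m r (fun i => if h : i < k then (Om y (n ⟨i, h⟩) : ℝ) else 0))).card : ℝ) ≤
      8 * C * L / ((a : ℝ) ^ 2 * m) * (N : ℝ) ^ k := by
    intro r
    have hpos : ∀ (j : Fin m) (s : ℕ), (j : ℕ) * D + s % D < k := by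
      intro j s
      have h1 : s % D < D := Nat.mod_lt _ (by omega)
      have h2 : ((j : ℕ) + 1) * D ≤ m * D := Nat.mul_le_mul_right _ j.2
      nlinarith
    let e : Fin m × Bool → Fin k := fun t =>
      ⟨(t.1 : ℕ) * D + (if t.2 then r else r + 1) % D, hpos t.1 _⟩
    let ε : Fin m × Bool → ℝ := fun t => if t.2 then 1 else -1
    have hε : ∀ t, ε t * ε t = 1 := by
      intro t
      simp only [ε]
      split_ifs <;> norm_num
    have hne : r % D ≠ (r + 1) % D := by
      intro h
      have h1 : (r + 1) % D = (r % D + 1) % D := by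
        rw [Nat.add_mod, Nat.mod_eq_of_lt (show 1 < D by omega)]
      rw [h1] at h
      have h2 : r % D < D := Nat.mod_lt _ (by omega)
      rcases Nat.lt_or_ge (r % D + 1) D with h3 | h3
      · rw [Nat.mod_eq_of_lt h3] at h
        omega
      · have h4 : r % D + 1 = D := by omega
        rw [h4, Nat.mod_self] at h
        omega
    have he : Function.Injective e := by
      rintro ⟨j, b⟩ ⟨j', b'⟩ h
      simp only [e, Fin.mk.injEq] at h
      have h1 : (if b then r else r + 1) % D < D := Nat.mod_lt _ (by omega)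
      have h2 : (if b' then r else r + 1) % D < D := Nat.mod_lt _ (by omega)
      have h3 : (j : ℕ) = j' := by
        have h4 : ((j : ℕ) * D + (if b then r else r + 1) % D) / D = j := by
          rw [mul_comm, Nat.mul_add_div (by omega), Nat.div_eq_of_lt h1, add_zero]
        have h5 : ((j' : ℕ) * D + (if b' then r else r + 1) % D) / D = j' := by
          rw [mul_comm, Nat.mul_add_div (by omega), Nat.div_eq_of_lt h2, add_zero]
        rw [← h4, ← h5, h]
      rw [h3] at h
      have h6 := Nat.add_left_cancel h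
      have h7 : b = b' := by
        cases b <;> cases b'
        · rfl
        · exact absurd (by simpa using h6.symm) hne
        · exact absurd (by simpa using h6) hne
        · rfl
      rw [Fin.ext h3, h7]
    have hstat : ∀ n : Fin k → ℕ,
        stat D m r (fun i => if h : i < k then (Om y (n ⟨i, h⟩) : ℝ) else 0) =
          ∑ t, ε t * Y (n (e t)) := by
      intro n
      rw [Fintype.sum_prod_type]
      unfold stat
      rw [← Fin.sum_univ_eq_sum_range (fun j => (if h : j * D + r % D < k then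
        (Om y (n ⟨j * D + r % D, h⟩) : ℝ) else 0) - (if h : j * D + (r + 1) % D < k then
        (Om y (n ⟨j * D + (r + 1) % D, h⟩) : ℝ) else 0)) m]
      refine sum_congr rfl fun j _ => ?_
      rw [dif_pos (hpos j r), dif_pos (hpos j (r + 1)), Fintype.sum_bool]
      simp only [ε, e, hY, if_true, Bool.false_eq_true, if_false]
      ring
    have hsec := second S Y h0 e he ε hε
    simp only [← hstat] at hsec
    set f : (Fin k → ℕ) → ℝ := fun n =>
      stat D m r (fun i => if h : i < k then (Om y (n ⟨i, h⟩) : ℝ) else 0) with hf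
    have ham : 0 < (a : ℝ) * m / 2 := by
      have h1 : (0 : ℝ) < a := by exact_mod_cast ha
      have h2 : (0 : ℝ) < m := by exact_mod_cast hm
      positivity
    have hch : (((Fintype.piFinset (fun _ : Fin k => S)).filter (fun n => (a : ℝ) * m / 2 ≤ f n)).card : ℝ) *
        ((a : ℝ) * m / 2) ^ 2 ≤ ∑ n ∈ Fintype.piFinset (fun _ : Fin k => S), f n ^ 2 := by
      rw [← nsmul_eq_mul, ← sum_const]
      refine (sum_le_sum fun n hn => ?_).trans
        (sum_le_sum_of_subset_of_nonneg (filter_subset _ _) fun n _ _ => sq_nonneg (f n))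
      exact pow_le_pow_left₀ ham.le (mem_filter.1 hn).2 2
    rw [hsec, hcard] at hch
    have hcι : (Fintype.card (Fin m × Bool) : ℝ) = 2 * m := by
      rw [Fintype.card_prod, Fintype.card_fin, Fintype.card_bool]
      push_cast
      ring
    rw [hcι] at hch
    have hNk : (N : ℝ) ^ (k - 1) * N = (N : ℝ) ^ k := by
      rw [← pow_succ, Nat.sub_add_cancel hk1]
    have hm0 : (0 : ℝ) < m := by exact_mod_cast hm
    have ha0 : (0 : ℝ) < a := by exact_mod_cast ha
    have h3 : 2 * (m : ℝ) * ((N : ℝ) ^ (k - 1) * ∑ x ∈ S, Y x ^ 2) ≤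
        2 * m * (C * L * (N : ℝ) ^ k) := by
      refine mul_le_mul_of_nonneg_left ?_ (by positivity)
      calc (N : ℝ) ^ (k - 1) * ∑ x ∈ S, Y x ^ 2 ≤ (N : ℝ) ^ (k - 1) * (C * L * N) :=
            mul_le_mul_of_nonneg_left hV (by positivity)
        _ = C * L * ((N : ℝ) ^ (k - 1) * N) := by ring
        _ = _ := by rw [hNk]
    have h4 := hch.trans h3
    have h5 : 8 * C * L / ((a : ℝ) ^ 2 * m) * (N : ℝ) ^ k =
        2 * m * (C * L * (N : ℝ) ^ k) / ((a : ℝ) * m / 2) ^ 2 := by
      field_simp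
      ring
    rw [h5, le_div_iff₀ (by positivity)]
    exact h4
  -- all residue classes
  have hsub : (Fintype.piFinset (fun _ : Fin k => S)).filter (fun n => ∃ r < D, (a : ℝ) * m / 2 ≤
      stat D m r (fun i => if h : i < k then (Om y (n ⟨i, h⟩) : ℝ) else 0)) ⊆
      (range D).biUnion fun r => (Fintype.piFinset (fun _ : Fin k => S)).filter (fun n =>
        (a : ℝ) * m / 2 ≤ stat D m r (fun i => if h : i < k then (Om y (n ⟨i, h⟩) : ℝ) else 0)) := by
    intro n hn
    obtain ⟨h1, r, hr, h2⟩ := mem_filter.1 hn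
    exact mem_biUnion.2 ⟨r, mem_range.2 hr, mem_filter.2 ⟨h1, h2⟩⟩
  have h1 := (card_le_card hsub).trans card_biUnion_le
  have h2 : (((Fintype.piFinset (fun _ : Fin k => S)).filter (fun n => ∃ r < D, (a : ℝ) * m / 2 ≤
      stat D m r (fun i => if h : i < k then (Om y (n ⟨i, h⟩) : ℝ) else 0))).card : ℝ) ≤
      ∑ r ∈ range D, (((Fintype.piFinset (fun _ : Fin k => S)).filter (fun n => (a : ℝ) * m / 2 ≤
      stat D m r (fun i => if h : i < k then (Om y (n ⟨i, h⟩) : ℝ) else 0))).card : ℝ) := by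
    exact_mod_cast h1
  refine h2.trans ((sum_le_sum fun r _ => key r).trans (le_of_eq ?_))
  rw [sum_const, card_range, nsmul_eq_mul, hD]
  push_cast
  ring

end Pool.Agent.H91.OM
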